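import Pool.Agent.MP_c69980_ag.H4.Base

/-!
Test functions, local integrability, upper integrals, and the sub-mean property of `log |h|`.
-/

set_option autoImplicit false

namespace Pool.Agent.MP_c69980_ag.H26

open Metric Filter Topology MeasureTheory Set Real H4
open scoped ContDiff ENNReal

variable {O O₁ : Set ℂ} {ψ u : ℂ → ℝ}

lemma D_cdOn {n m : WithTop ℕ∞} (hO : IsOpen O) (hu : ContDiffOn ℝ n u O) (hn : m + 1 ≤ n)
    (v : ℂ) : ContDiffOn ℝ m (D v u) O :=
  (hu.fderiv_of_isOpen hO hn).clm_apply contDiffOn_const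

lemma D_cd (hg : ContDiff ℝ ∞ u) (v : ℂ) : ContDiff ℝ ∞ (D v u) :=
  contDiffOn_univ.1 (D_cdOn isOpen_univ hg.contDiffOn le_rfl v)

lemma lap_cdOn (hO : IsOpen O) (hg : ContDiffOn ℝ ∞ u O) : ContDiffOn ℝ ∞ (lap u) O :=
  (D_cdOn hO (D_cdOn hO hg le_rfl 1) le_rfl 1).add
    (D_cdOn hO (D_cdOn hO hg le_rfl Complex.I) le_rfl Complex.I)

lemma test_D (h : Test O ψ) (v : ℂ) : Test O (D v ψ) :=
  ⟨D_cd h.1 v, h.2.1.fderiv_apply ℝ v, (tsupport_fderiv_apply_subset ℝ v).trans h.2.2⟩

lemma test_lap (h : Test O ψ) : Test O (lap ψ) :=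
  have a := test_D (test_D h 1) 1
  have b := test_D (test_D h Complex.I) Complex.I
  ⟨a.1.add b.1, a.2.1.add b.2.1, (tsupport_add _ _).trans (union_subset a.2.2 b.2.2)⟩

lemma test_self (h : Test O ψ) : Test (tsupport ψ) ψ := ⟨h.1, h.2.1, subset_rfl⟩

lemma test_zero (h : Test O ψ) {z : ℂ} (hz : z ∉ O) : ψ z = 0 :=
  image_eq_zero_of_notMem_tsupport fun a => hz (h.2.2 a)

lemma test_fderiv (h : Test O ψ) {z : ℂ} (hz : z ∉ O) : fderiv ℝ ψ z = 0 :=
  image_eq_zero_of_notMem_tsupport fun a => hz (h.2.2 (tsupport_fderiv_subset ℝ a))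

lemma cd_mul {n : WithTop ℕ∞} (hO : IsOpen O) (hu : ContDiffOn ℝ n u O) (hψ : ContDiff ℝ n ψ)
    (hs : tsupport ψ ⊆ O) : ContDiff ℝ n fun z => u z * ψ z :=
  contDiff_iff_contDiffAt.2 fun z => by
    by_cases hz : z ∈ O
    · exact (hu.contDiffAt (hO.mem_nhds hz)).mul hψ.contDiffAt
    · refine (contDiffAt_const (c := 0)).congr_of_eventuallyEq ?_
      filter_upwards [notMem_tsupport_iff_eventuallyEq.1 fun a => hz (hs a)] with y hy
      simp [hy]

lemma fderiv_eq (f : ℂ → ℝ) (z v : ℂ) :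
    fderiv ℝ f z v = v.re * D 1 f z + v.im * D Complex.I f z := by
  conv_lhs => rw [show v = v.re • (1 : ℂ) + v.im • Complex.I by simp]
  simp only [map_add, map_smul, smul_eq_mul, D]

lemma norm_grad (f : ℂ → ℝ) (z : ℂ) :
    ‖grad f z‖ ^ 2 = D 1 f z ^ 2 + D Complex.I f z ^ 2 := by
  rw [Complex.sq_norm, Complex.normSq_apply, grad]; ring

lemma abs_fderiv_le (f : ℂ → ℝ) (z v : ℂ) : |fderiv ℝ f z v| ≤ ‖grad f z‖ * ‖v‖ := by
  refine abs_le_of_sq_le_sq ?_ (by positivity)
  rw [fderiv_eq, mul_pow, norm_grad, Complex.sq_norm, Complex.normSq_apply]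
  nlinarith [sq_nonneg (v.re * D Complex.I f z - v.im * D 1 f z)]

lemma grad_eq (f : ℂ → ℝ) :
    grad f = fun z => D 1 f z • (1 : ℂ) + D Complex.I f z • Complex.I :=
  funext fun z => by apply Complex.ext <;> simp [grad]

lemma D_congr {f g : ℂ → ℝ} {z : ℂ} (h : f =ᶠ[𝓝 z] g) (v : ℂ) : D v f =ᶠ[𝓝 z] D v g :=
  h.fderiv.mono fun w a => by simp only [D]; rw [a]

lemma lap_congr {f g : ℂ → ℝ} {z : ℂ} (h : f =ᶠ[𝓝 z] g) : lap f =ᶠ[𝓝 z] lap g := by
  filter_upwards [D_congr (D_congr h 1) 1, D_congr (D_congr h Complex.I) Complex.I] with w a b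
  simp only [lap, a, b]

lemma D_const (k : ℝ) (v : ℂ) : D v (fun _ => k) = fun _ => 0 := funext fun z => by simp [D]

lemma lap_const (k : ℝ) : lap (fun _ => k) = fun _ => 0 := funext fun z => by simp [lap, D_const]

section bil

variable {A B G : Type} [NormedAddCommGroup A] [NormedSpace ℝ A] [NormedAddCommGroup B]
  [NormedSpace ℝ B] [NormedAddCommGroup G] [NormedSpace ℝ G] (L : A →L[ℝ] B →L[ℝ] G)
  {a : ℂ → A} {f : ℂ → B}

lemma li_bil (hO : IsOpen O) (ha : ContinuousOn a O) (hf : LocallyIntegrableOn f O) :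
    LocallyIntegrableOn (fun z => L (a z) (f z)) O := by
  rw [locallyIntegrableOn_iff hO.isLocallyClosed] at hf ⊢
  intro K h1 h2
  obtain ⟨M, hM⟩ := h2.exists_bound_of_continuousOn (ha.mono h1)
  exact L.integrable_of_bilin_of_bdd_left M ((ha.mono h1).aestronglyMeasurable h2.measurableSet)
    ((ae_restrict_iff' h2.measurableSet).2 (.of_forall hM)) (hf K h1 h2)

lemma li_off (hO : IsOpen O) (hO₁ : IsOpen O₁) (ha : ContinuousOn a O)
    (h0 : ∀ z ∈ O, z ∉ O₁ → a =ᶠ[𝓝 z] 0) (hf : LocallyIntegrableOn f O₁) :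
    LocallyIntegrableOn (fun z => L (a z) (f z)) O := fun z hz => by
  by_cases h : z ∈ O₁
  · have := li_bil L (hO.inter hO₁) (ha.mono inter_subset_left) (hf.mono_set inter_subset_right) z
      ⟨hz, h⟩
    rw [(hO.inter hO₁).nhdsWithin_eq ⟨hz, h⟩] at this
    exact this.filter_mono nhdsWithin_le_nhds
  · obtain ⟨t, t1, t2, t3⟩ := _root_.eventually_nhds_iff.1 (h0 z hz h)
    refine ⟨t, mem_nhdsWithin_of_mem_nhds (t2.mem_nhds t3), ?_⟩
    refine (integrableOn_zero (μ := volume) (s := t)).congr_fun (fun w hw => ?_) t2.measurableSet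
    simp [t1 w hw]

lemma int_bil (hO : IsOpen O) (ha : ContinuousOn a O) (hf : LocallyIntegrableOn f O) {K : Set ℂ}
    (hK : IsCompact K) (hKO : K ⊆ O) (h0 : ∀ z ∉ K, a z = 0) :
    Integrable fun z => L (a z) (f z) :=
  ((li_bil L hO ha hf).integrableOn_compact_subset hKO hK).integrable_of_forall_notMem_eq_zero
    fun z hz => by simp [h0 z hz]

end bil

lemma int_mul {v : ℂ → ℝ} (hO : IsOpen O) (hv : LocallyIntegrableOn v O) (h : Test O ψ) :
    Integrable fun z => v z * ψ z :=
  int_bil (ContinuousLinearMap.mul ℝ ℝ).flip hO h.1.continuous.continuousOn hv h.2.1 h.2.2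
    fun _ hz => test_zero (test_self h) hz

lemma int_fd {E : ℂ → ℂ} (hO : IsOpen O) (hE : LocallyIntegrableOn E O) (h : Test O ψ) :
    Integrable fun z => fderiv ℝ ψ z (E z) :=
  int_bil (ContinuousLinearMap.id ℝ (ℂ →L[ℝ] ℝ)) hO
    (h.1.continuous_fderiv (by simp)).continuousOn hE h.2.1 h.2.2
    fun _ hz => test_fderiv (test_self h) hz

lemma int_le {f : ℂ → ℝ} {F : ℂ → ℝ≥0∞} {b : ℝ} (hf : Integrable f)
    (h : ∀ᵐ z, ENNReal.ofReal (f z) ≤ F z) (hF : ∫⁻ z, F z ≤ ENNReal.ofReal b) (hb : 0 ≤ b) :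
    ∫ z, f z ≤ b := by
  rw [integral_eq_lintegral_pos_part_sub_lintegral_neg_part hf]
  have := ENNReal.toReal_le_of_le_ofReal hb ((lintegral_mono_ae h).trans hF)
  linarith [ENNReal.toReal_nonneg (a := ∫⁻ z, ENNReal.ofReal (-f z))]

lemma polar (w : ℂ → ℝ) (z₀ : ℂ) (ρ : ℝ)
    (h : ∀ s, 0 < s → s < ρ → 0 ≤ circleAverage w z₀ s) : 0 ≤ ∫ z in ball z₀ ρ, w z := by
  rw [← integral_indicator measurableSet_ball, ← integral_add_left_eq_self _ z₀,
    ← Complex.integral_comp_polarCoord_symm]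
  by_cases hi : IntegrableOn (fun p : ℝ × ℝ => p.1 • (ball z₀ ρ).indicator w
      (z₀ + Complex.polarCoord.symm p)) polarCoord.target
  swap
  · rw [integral_undef hi]
  rw [polarCoord_target, Measure.volume_eq_prod] at hi ⊢
  rw [setIntegral_prod _ hi]
  refine setIntegral_nonneg measurableSet_Ioi fun s hs => ?_
  have hs : 0 < s := hs
  have e : ∀ θ : ℝ, z₀ + Complex.polarCoord.symm (s, θ) = circleMap z₀ s θ := fun θ => by
    simp [circleMap, Complex.exp_mul_I]
  simp only [e]
  rw [integral_smul]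
  refine smul_nonneg hs.le ?_
  by_cases hρ : s < ρ
  · have h1 : ∀ θ : ℝ, (ball z₀ ρ).indicator w (circleMap z₀ s θ) = w (circleMap z₀ s θ) :=
      fun θ => indicator_of_mem (by simpa [mem_ball, dist_eq_norm, abs_of_pos hs] using hρ) _
    have h2 := h s hs hρ
    rw [circleAverage_eq_integral_add (-π),
      intervalIntegral.integral_comp_add_right (fun θ => w (circleMap z₀ s θ)),
      intervalIntegral.integral_of_le (by linarith [pi_pos]), integral_Ioc_eq_integral_Ioo,
      zero_add, show 2 * π + -π = π by ring, smul_eq_mul] at h2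
    simp only [h1]
    exact nonneg_of_mul_nonneg_right h2 (by positivity)
  · have h1 : ∀ θ : ℝ, (ball z₀ ρ).indicator w (circleMap z₀ s θ) = 0 :=
      fun θ => indicator_of_notMem (by simpa [mem_ball, dist_eq_norm, abs_of_pos hs] using hρ) _
    simp [h1]

lemma vol_ball (z₀ : ℂ) {ρ : ℝ} (hρ : 0 < ρ) : volume.real (ball z₀ ρ) = π * ρ ^ 2 := by
  simp [Measure.real, Complex.volume_ball, hρ.le, mul_comm]

lemma jensen {g : ℂ → ℂ} {c : ℂ} {s : ℝ} (hs : 0 < s) (ha : AnalyticOnNhd ℂ g (closedBall c s))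
    (h0 : g c ≠ 0) : 0 ≤ circleAverage (fun z => log ‖g z‖ - log ‖g c‖) c s := by
  rw [← abs_of_pos hs] at ha
  have hm : MeromorphicOn g (sphere c |s|) := (ha.mono sphere_subset_closedBall).meromorphicOn
  have h1 := ha.circleAverage_log_norm hs.ne' h0
  have h2 : 0 ≤ ∑ᶠ u, MeromorphicOn.divisor g (closedBall c |s|) u * log (s * ‖c - u‖⁻¹) := by
    refine finsum_nonneg fun u => ?_
    by_cases hu : u ∈ closedBall c |s|
    · refine mul_nonneg (by exact_mod_cast MeromorphicOn.AnalyticOnNhd.divisor_nonneg ha u) ?_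
      by_cases h3 : c - u = 0
      · simp [h3]
      · refine log_nonneg ?_
        rw [← div_eq_mul_inv, one_le_div (norm_pos_iff.2 h3)]
        rwa [mem_closedBall', dist_eq_norm, abs_of_pos hs] at hu
    · simp [Function.locallyFinsuppWithin.apply_eq_zero_of_notMem _ hu]
  rw [circleAverage_fun_sub hm.circleIntegrable_log_norm (circleIntegrable_const _ c s),
    circleAverage_const]
  linarith

lemma li_log0 : LocallyIntegrable fun x : ℂ => log ‖x‖ := by
  have h1 : LocallyIntegrable (fun x : ℂ => ‖x‖⁻¹) := by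
    refine locallyIntegrable_of_norm_le_rpow (C := 1) (α := 1) (by simp)
      (by simp) (Eventually.of_forall fun x => ?_) ?_
    · simp [rpow_neg_one]
    · exact (measurable_norm.inv).aestronglyMeasurable
  have h2 : LocallyIntegrable (fun x : ℂ => ‖x‖) := continuous_norm.locallyIntegrable
  refine (h1.add h2).mono (measurable_norm.log).aestronglyMeasurable
    (Eventually.of_forall fun x => ?_)
  have h3 := neg_inv_le_log (norm_nonneg x)
  have h4 := log_le_self (norm_nonneg x)
  have h5 : 0 ≤ ‖x‖⁻¹ := by positivity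
  have h6 := norm_nonneg x
  simp only [Pi.add_apply, norm_eq_abs]
  rw [abs_of_nonneg (add_nonneg h5 h6), abs_le]
  constructor <;> linarith

lemma li_log1 (c : ℂ) : LocallyIntegrable fun x : ℂ => log ‖x - c‖ := by
  have := li_log0
  rw [← map_sub_right_eq_self volume c] at this
  exact (locallyIntegrable_map_homeomorph (Homeomorph.subRight c)).1 this

lemma li_log {h : ℂ → ℂ} (hO : IsOpen O) (hh : DifferentiableOn ℂ h O) :
    LocallyIntegrableOn (fun z => log ‖h z‖) O := fun z hz => by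
  refine IntegrableAtFilter.filter_mono nhdsWithin_le_nhds ?_
  have ha := hh.analyticOnNhd hO z hz
  by_cases h0 : ∀ᶠ w in 𝓝 z, h w = 0
  · obtain ⟨t, t1, t2, t3⟩ := _root_.eventually_nhds_iff.1 h0
    refine ⟨t, t2.mem_nhds t3, ?_⟩
    refine (integrableOn_zero (μ := volume) (s := t)).congr_fun (fun w hw => ?_) t2.measurableSet
    simp [t1 w hw]
  obtain ⟨n, g, g1, g2, g3⟩ := ha.exists_eventuallyEq_pow_smul_nonzero_iff.2 h0
  obtain ⟨t, t1, t2, t3⟩ := _root_.eventually_nhds_iff.1 (g3.and (g1.eventually_analyticAt.and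
    (g1.continuousAt.eventually_ne g2)))
  have c1 : ContinuousOn (fun w => log ‖g w‖) t := fun w hw =>
    ((t1 w hw).2.1.continuousAt.norm.log (norm_ne_zero_iff.2 (t1 w hw).2.2)).continuousWithinAt
  have c2 := (((li_log1 z).locallyIntegrableOn t).smul (n : ℝ)).add
    (c1.locallyIntegrableOn t2.measurableSet)
  have c3 : LocallyIntegrableOn (fun w => log ‖h w‖) t := by
    refine c2.congr ((ae_restrict_iff' t2.measurableSet).2 ?_)
    filter_upwards [compl_mem_ae_iff.2 (measure_singleton z)] with w hw hwt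
    have : ‖w - z‖ ≠ 0 := norm_ne_zero_iff.2 (sub_ne_zero.2 hw)
    simp only [Pi.add_apply, Pi.smul_apply, smul_eq_mul, (t1 w hwt).1, norm_mul, norm_pow]
    rw [log_mul (pow_ne_zero _ this) (norm_ne_zero_iff.2 (t1 w hwt).2.2), log_pow]
  simpa only [t2.nhdsWithin_eq t3] using c3 z t3

theorem logSub : LogSubStmt := fun O h hO hh => ⟨li_log hO hh, fun c s hs hc h0 => by
  have ha := (hh.analyticOnNhd hO).mono hc
  refine ⟨ae_of_punct isOpen_ball fun z hz => ?_, ?_⟩
  · refine ((ha z (ball_subset_closedBall hz)).eventually_eq_zero_or_eventually_ne_zero).resolve_left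
      fun a => h0 ?_
    exact ha.eqOn_zero_of_preconnected_of_eventuallyEq_zero (convex_closedBall c s).isPreconnected
      (ball_subset_closedBall hz) a (mem_closedBall_self hs.le)
  · have := polar (fun z => log ‖h z‖ - log ‖h c‖) c s fun r hr hrs =>
      jensen hr (ha.mono (closedBall_subset_closedBall hrs.le)) h0
    rw [integral_sub (((li_log hO hh).integrableOn_compact_subset hc
      (isCompact_closedBall c s)).mono_set ball_subset_closedBall)
      (integrableOn_const measure_ball_lt_top.ne), setIntegral_const, vol_ball c hs,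
      smul_eq_mul] at this
    linarith⟩

theorem radial : RadStmt := fun ρ σ h c1 c2 c3 c4 hh h0 => by
  have hK : IsCompact (tsupport σ) :=
    (isCompact_closedBall 0 ρ).of_isClosed_subset (isClosed_tsupport σ)
      (c4.trans ball_subset_closedBall)
  have i1 : Integrable fun z => log ‖h z‖ * σ z :=
    int_bil (ContinuousLinearMap.mul ℝ ℝ).flip isOpen_ball c1.continuousOn (li_log isOpen_ball hh)
      hK c4 fun _ => image_eq_zero_of_notMem_tsupport
  have i2 : Integrable σ := c1.integrable_of_hasCompactSupport hK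
  have := polar (fun z => σ z * (log ‖h z‖ - log ‖h 0‖)) 0 ρ fun r hr hrs => by
    rw [circleAverage_congr_sphere (f₂ := σ r • fun z => log ‖h z‖ - log ‖h 0‖) fun z hz => by
      rw [Pi.smul_apply, smul_eq_mul, c3 z r (by simpa using hz)], circleAverage_smul]
    exact smul_nonneg (c2 r) (jensen hr ((hh.analyticOnNhd isOpen_ball).mono
      (closedBall_subset_ball hrs)) h0)
  rw [setIntegral_eq_integral_of_forall_compl_eq_zero fun z hz => by
    rw [image_eq_zero_of_notMem_tsupport fun a => hz (c4 a), zero_mul]] at this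
  simp only [mul_comm (σ _), sub_mul] at this
  rw [integral_sub i1 (i2.const_mul _), integral_const_mul] at this
  linarith

end Pool.Agent.MP_c69980_ag.H26
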