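import Pool.Agent.MP_c69980_ag.H26.Basic

/-!
Patching of almost subharmonic functions.
-/

set_option autoImplicit false

namespace Pool.Agent.MP_c69980_ag.H26

open Metric Filter Topology MeasureTheory Set Real H4
open scoped ContDiff ENNReal

lemma loc_const {χ : ℂ → ℝ} {z : ℂ} {k : ℝ} (h : χ =ᶠ[𝓝 z] fun _ => k) :
    lap χ =ᶠ[𝓝 z] 0 ∧ fderiv ℝ χ =ᶠ[𝓝 z] 0 ∧ grad χ =ᶠ[𝓝 z] 0 := by
  refine ⟨(lap_congr h).trans (by rw [lap_const]; rfl), h.fderiv.trans (by simp), ?_⟩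
  filter_upwards [D_congr h 1, D_congr h Complex.I] with w a b
  simp [grad_eq, a, b, D_const]

lemma D_one_sub (χ : ℂ → ℝ) (v : ℂ) : D v (fun z => 1 - χ z) = fun z => -D v χ z :=
  funext fun z => by simp [D, fderiv_const_sub]

lemma D_neg (χ : ℂ → ℝ) (v : ℂ) : D v (fun z => -χ z) = fun z => -D v χ z :=
  funext fun z => by simp [D, fderiv_fun_neg]

lemma test_mul {O O₁ : Set ℂ} {χ ψ : ℂ → ℝ} (hO : IsOpen O) (hχ : ContDiffOn ℝ ∞ χ O)
    (hψ : Test O ψ) (h : ∀ z ∈ O, z ∉ O₁ → χ =ᶠ[𝓝 z] 0) :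
    Test (O ∩ O₁) fun z => χ z * ψ z := by
  refine ⟨cd_mul hO hχ hψ.1 hψ.2.2, hψ.2.1.mul_left, fun z hz => ?_⟩
  have h1 := hψ.2.2 (tsupport_mul_subset_right hz)
  refine ⟨h1, by_contra fun a => notMem_tsupport_iff_eventuallyEq.2 ?_ hz⟩
  filter_upwards [h z h1 a] with w b
  simp [b]

lemma AS.int {O : Set ℂ} {v e ψ : ℂ → ℝ} {E : ℂ → ℂ} (hO : IsOpen O) (h : AS O v e E)
    (hψ : Test O ψ) : Integrable fun z => v z * lap ψ z + e z * ψ z + fderiv ℝ ψ z (E z) :=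
  ((int_mul hO h.1 (test_lap hψ)).add (int_mul hO h.2.1 hψ)).add (int_fd hO h.2.2.1 hψ)

theorem asPatch (hL : LapRuleStmt) : ASPatchStmt := by
  intro O O₁ O₂ v₁ v₂ e₁ e₂ χ E₁ E₂ hO hO₁ hO₂ hχ H ha hb
  have hχ' : ContDiffOn ℝ ∞ (fun z => 1 - χ z) O := contDiffOn_const.sub hχ
  have c0 := hχ.continuousOn
  have c1 := hχ'.continuousOn
  have c2 := (lap_cdOn hO hχ).continuousOn
  have c3 : ContinuousOn (fderiv ℝ χ) O := hχ.continuousOn_fderiv_of_isOpen hO (by simp)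
  have c4 : ContinuousOn (grad χ) O := by
    rw [grad_eq]
    exact ((D_cdOn (m := ∞) hO hχ le_rfl 1).continuousOn.smul continuousOn_const).add
      ((D_cdOn (m := ∞) hO hχ le_rfl _).continuousOn.smul continuousOn_const)
  have z0 : ∀ z ∈ O, z ∉ O₁ → χ =ᶠ[𝓝 z] 0 := fun z hz => (H z hz).2.2.1
  have z1 : ∀ z ∈ O, z ∉ O₂ → (fun z => 1 - χ z) =ᶠ[𝓝 z] 0 := fun z hz a =>
    ((H z hz).2.2.2 a).mono fun w b => by simp [b]
  have y0 := fun z hz a => loc_const (k := 0) (z0 z hz a)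
  have y1 := fun z hz a => loc_const (k := 1) ((H z hz).2.2.2 a)
  let m := ContinuousLinearMap.mul ℝ ℝ
  let s : ℝ →L[ℝ] ℂ →L[ℝ] ℂ := ContinuousLinearMap.lsmul ℝ ℝ
  let p := ContinuousLinearMap.id ℝ (ℂ →L[ℝ] ℝ)
  refine ⟨(li_off m hO hO₁ c0 z0 ha.1).add (li_off m hO hO₂ c1 z1 hb.1), ?_, ?_,
    fun ψ hψ h0 => ?_⟩
  · refine ((((li_off m hO hO₁ c0 z0 ha.2.1).add (li_off m hO hO₂ c1 z1 hb.2.1)).add
      ((li_off m hO hO₁ c2 (fun z a b => (y0 z a b).1) ha.1).sub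
        (li_off m hO hO₂ c2 (fun z a b => (y1 z a b).1) hb.1))).add
      ((li_off p hO hO₁ c3 (fun z a b => (y0 z a b).2.1) ha.2.2.1).sub
        (li_off p hO hO₂ c3 (fun z a b => (y1 z a b).2.1) hb.2.2.1))).congr
      (.of_forall fun z => ?_)
    simp [m, p]
    ring
  · refine (((li_off s hO hO₁ c0 z0 ha.2.2.1).add (li_off s hO hO₂ c1 z1 hb.2.2.1)).add
      (((li_off s.flip hO hO₁ c4 (fun z a b => (y0 z a b).2.2) ha.1).sub
        (li_off s.flip hO hO₂ c4 (fun z a b => (y1 z a b).2.2) hb.1)).smul (2 : ℝ))).congr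
      (.of_forall fun z => ?_)
    simp [s]
    ring
  have t1 := test_mul hO hχ hψ z0
  have t2 := test_mul hO hχ' hψ z1
  have nn : ∀ {χ : ℂ → ℝ}, (∀ z ∈ O, 0 ≤ χ z) → ∀ z, 0 ≤ χ z * ψ z := fun h z => by
    by_cases hz : z ∈ O
    · exact mul_nonneg (h z hz) (h0 z)
    · simp [test_zero hψ hz]
  have ha' := ha.mono (inter_subset_right (s := O))
  have hb' := hb.mono (inter_subset_right (s := O))
  have := add_nonneg (ha'.2.2.2 _ t1 (nn fun z hz => (H z hz).1))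
    (hb'.2.2.2 _ t2 (nn fun z hz => sub_nonneg.2 (H z hz).2.1))
  rw [← integral_add (AS.int (hO.inter hO₁) ha' t1) (AS.int (hO.inter hO₂) hb' t2)] at this
  refine this.trans_eq (integral_congr_ae (.of_forall fun z => ?_))
  by_cases hz : z ∈ O
  · have d0 : ContDiffAt ℝ 2 ψ z := hψ.1.contDiffAt.of_le (by norm_cast)
    have d1 : ContDiffAt ℝ 2 χ z := (hχ.contDiffAt (hO.mem_nhds hz)).of_le (by norm_cast)
    have d2 : ContDiffAt ℝ 2 (fun z => 1 - χ z) z := contDiffAt_const.sub d1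
    simp only [(hL χ ψ id z d1 d0 contDiffAt_id).2.1, (hL _ ψ id z d2 d0 contDiffAt_id).2.1,
      fderiv_fun_mul (d1.differentiableAt (by simp)) (d0.differentiableAt (by simp)),
      fderiv_fun_mul (d2.differentiableAt (by simp)) (d0.differentiableAt (by simp)),
      add_apply, smul_apply, smul_eq_mul, map_add, map_sub, map_smul]
    simp only [lap, grad_eq, D_one_sub, D_neg, fderiv_const_sub, neg_apply, map_add, map_smul,
      smul_eq_mul]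
    ring
  · have n1 : z ∉ O ∩ O₁ := fun a => hz a.1
    have n2 : z ∉ O ∩ O₂ := fun a => hz a.1
    simp [test_zero hψ hz, test_zero (test_lap hψ) hz, test_fderiv hψ hz,
      test_zero (test_lap t1) n1, test_fderiv t1 n1, test_zero (test_lap t2) n2, test_fderiv t2 n2]

lemma amgm {t x y : ℝ} (ht : 0 < t) : x * y ≤ t * x ^ 2 + t⁻¹ * y ^ 2 := by
  have h := sq_nonneg (t * x - y)
  have : x * y = t⁻¹ * (t * x * y) := by field_simp
  have h2 : t * x ^ 2 = t⁻¹ * (t * x) ^ 2 := by field_simp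
  rw [this, h2, ← mul_add]
  exact mul_le_mul_of_nonneg_left (by nlinarith [sq_nonneg (t * x), sq_nonneg y]) (by positivity)

lemma pt_e {χ e₁ e₂ d l p g Y I₁ I₂ J₁ J₂ n₁ n₂ t : ℝ} (ht : 0 < t) (c0 : 0 ≤ χ) (c1 : χ ≤ 1)
    (h1 : |e₁| ≤ I₁) (h2 : |e₂| ≤ I₂) (hl : |l| ≤ Y) (hg : g ^ 2 ≤ Y) (hp : |p| ≤ g * (n₁ + n₂))
    (j1 : n₁ ^ 2 ≤ J₁) (j2 : n₂ ^ 2 ≤ J₂) :
    |χ * e₁ + (1 - χ) * e₂ + d * l + p| ≤ I₁ + I₂ + 3 * t * Y + t⁻¹ * (d ^ 2 * Y + (J₁ + J₂)) := by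
  have hY : 0 ≤ Y := (abs_nonneg l).trans hl
  have a1 : |χ * e₁| ≤ I₁ := by
    rw [abs_mul, abs_of_nonneg c0]; nlinarith [abs_nonneg e₁]
  have a2 : |(1 - χ) * e₂| ≤ I₂ := by
    rw [abs_mul, abs_of_nonneg (sub_nonneg.2 c1)]; nlinarith [abs_nonneg e₂]
  have a3 : |d * l| ≤ t * Y + t⁻¹ * (d ^ 2 * Y) := by
    have := mul_le_mul_of_nonneg_right (amgm (x := 1) (y := |d|) ht) hY
    rw [sq_abs] at this
    rw [abs_mul]
    nlinarith [abs_nonneg d]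
  have a4 := amgm (x := g) (y := n₁) ht
  have a5 := amgm (x := g) (y := n₂) ht
  have a6 := mul_le_mul_of_nonneg_left hg ht.le
  have a7 := mul_le_mul_of_nonneg_left j1 (inv_nonneg.2 ht.le)
  have a8 := mul_le_mul_of_nonneg_left j2 (inv_nonneg.2 ht.le)
  have := (abs_add_le _ p).trans (add_le_add_left (abs_add_three (χ * e₁) ((1 - χ) * e₂) (d * l)) _)
  linarith

lemma pt_E {χ d Y J₁ J₂ : ℝ} {E₁ E₂ G : ℂ} (c0 : 0 ≤ χ) (c1 : χ ≤ 1) (hg : ‖G‖ ^ 2 ≤ Y)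
    (j1 : ‖E₁‖ ^ 2 ≤ J₁) (j2 : ‖E₂‖ ^ 2 ≤ J₂) :
    ‖χ • E₁ + (1 - χ) • E₂ + (2 * d) • G‖ ^ 2 ≤ 3 * (J₁ + J₂) + 12 * (d ^ 2 * Y) := by
  have a1 : ‖χ • E₁‖ ≤ ‖E₁‖ := by
    rw [norm_smul, norm_eq_abs, abs_of_nonneg c0]; nlinarith [norm_nonneg E₁]
  have a2 : ‖(1 - χ) • E₂‖ ≤ ‖E₂‖ := by
    rw [norm_smul, norm_eq_abs, abs_of_nonneg (sub_nonneg.2 c1)]; nlinarith [norm_nonneg E₂]
  have a3 : ‖(2 * d) • G‖ ^ 2 ≤ 4 * (d ^ 2 * Y) := by
    rw [norm_smul, norm_eq_abs, mul_pow, sq_abs]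
    nlinarith [mul_le_mul_of_nonneg_left hg (sq_nonneg d)]
  have a4 := pow_le_pow_left₀ (norm_nonneg _) (norm_add₃_le.trans
    (add_le_add_left (add_le_add a1 a2) ‖(2 * d) • G‖)) 2
  nlinarith [sq_nonneg (‖E₁‖ - ‖E₂‖), sq_nonneg (‖E₁‖ - ‖(2 * d) • G‖),
    sq_nonneg (‖E₂‖ - ‖(2 * d) • G‖)]

lemma ind_nn (S : Set ℂ) (f : ℂ → ℝ) (z : ℂ) : 0 ≤ S.indicator (fun z => max (f z) 0) z :=
  indicator_nonneg (fun _ _ => le_max_right _ _) z

lemma ind_ge {S : Set ℂ} (f : ℂ → ℝ) {z : ℂ} (hz : z ∈ S) :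
    f z ≤ S.indicator (fun z => max (f z) 0) z := by
  rw [indicator_of_mem hz]; exact le_max_left _ _

theorem vPatch (hP : ASPatchStmt) : VPatchStmt := fun η₀ A h₀ => by
  obtain ⟨A', hA', hA⟩ : ∃ A', 0 < A' ∧ A ≤ A' := ⟨max A 1, by positivity, le_max_left _ _⟩
  obtain ⟨t, ht, ht'⟩ : ∃ t, 0 < t ∧ 3 * t * A' = η₀ / 2 :=
    ⟨η₀ / (6 * A'), by positivity, by field_simp; ring⟩
  obtain ⟨η, hη, hη'⟩ : ∃ η, 0 < η ∧ η * (18 + 6 * t⁻¹) = η₀ :=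
    ⟨η₀ / (18 + 6 * t⁻¹), by positivity, div_mul_cancel₀ _ (by positivity)⟩
  refine ⟨η, hη, ?_⟩
  rintro C O O₁ O₂ v₁ v₂ χ Y hC H ⟨e₁, f₁, E₁, a₁, p1, p2, p3, p4⟩ ⟨e₂, f₂, E₂, a₂, q1, q2, q3, q4⟩
    hY hd
  have un : ∀ {e : ℕ → ℂ → ℝ} {r : ℝ}, Sm C (fun _ => univ) e r → Sm C O e r := fun h =>
    h.mono hC le_rfl (.of_forall fun _ => .of_forall fun _ _ => ⟨trivial, le_rfl⟩)
  have hY' := hY.mono hC hA (.of_forall fun _ => .of_forall fun _ hz => ⟨hz, le_rfl⟩)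
  have hJ := (un p3.ind).add hC (un q3.ind) hη.le hη.le
  have hi := mul_pos hη (inv_pos.2 ht)
  refine ⟨fun k z => χ k z * e₁ k z + (1 - χ k z) * e₂ k z + (v₁ k z - v₂ k z) * lap (χ k) z +
    fderiv ℝ (χ k) z (E₁ k z - E₂ k z), fun k z => (O₁ k).indicator (fun z => max (f₁ k z) 0) z +
    (O₂ k).indicator (fun z => max (f₂ k z) 0) z, fun k z => χ k z • E₁ k z +
    (1 - χ k z) • E₂ k z + (2 * (v₁ k z - v₂ k z)) • grad (χ k) z, max a₁ a₂, ?_, ?_, ?_, ?_⟩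
  · filter_upwards [H, p1, q1] with k ⟨o, o1, o2, c, hk⟩ ⟨r1, r2⟩ ⟨s1, s2⟩
    refine ⟨hP _ _ _ _ _ _ _ _ _ _ o o1 o2 c (fun z hz => ⟨(hk z hz).1, (hk z hz).2.1,
      (hk z hz).2.2.1, (hk z hz).2.2.2.1⟩) r1 s1, ?_⟩
    filter_upwards [r2, s2] with z r s hz
    have n1 := ind_nn (O₁ k) (f₁ k) z
    have n2 := ind_nn (O₂ k) (f₂ k) z
    obtain ⟨c0, c1, c2, c3, -⟩ := hk z hz
    refine ⟨add_nonneg n1 n2, ?_⟩
    set b := max a₁ a₂ + log (1 + ((O₁ k).indicator (fun z => max (f₁ k z) 0) z +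
      (O₂ k).indicator (fun z => max (f₂ k z) 0) z))
    have b1 : χ k z * (C.u k z + v₁ k z) ≤ χ k z * b := by
      by_cases h : z ∈ O₁ k
      · refine mul_le_mul_of_nonneg_left ((r h).2.trans (add_le_add (le_max_left _ _)
          (log_le_log (by linarith [(r h).1]) (by linarith [ind_ge (f₁ k) h])))) c0
      · simp [(c2 h).self_of_nhds]
    have b2 : (1 - χ k z) * (C.u k z + v₂ k z) ≤ (1 - χ k z) * b := by
      by_cases h : z ∈ O₂ k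
      · refine mul_le_mul_of_nonneg_left ((s h).2.trans (add_le_add (le_max_right _ _)
          (log_le_log (by linarith [(s h).1]) (by linarith [ind_ge (f₂ k) h])))) (sub_nonneg.2 c1)
      · simp [(c3 h).self_of_nhds]
    linarith
  · refine ((((un p2.ind).add hC (un q2.ind) hη.le hη.le).add hC
      (hY'.smul (t := 3 * t) (by positivity)) (by positivity) (by positivity)).add hC
      ((hd.add hC hJ hη.le (by positivity)).smul (inv_nonneg.2 ht.le)) (by positivity)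
      (by positivity)).mono hC (by linarith) (H.mono fun k ⟨_, _, _, _, hk⟩ =>
        .of_forall fun z hz => ⟨hz, ?_⟩)
    obtain ⟨c0, c1, c2, c3, c4, c5⟩ := hk z hz
    by_cases h1 : z ∈ O₁ k
    · by_cases h2 : z ∈ O₂ k
      · exact pt_e ht c0 c1 (ind_ge (fun z => |e₁ k z|) h1) (ind_ge (fun z => |e₂ k z|) h2) c5 c4
          ((abs_fderiv_le _ _ _).trans (mul_le_mul_of_nonneg_left (norm_sub_le _ _)
            (norm_nonneg _))) (ind_ge (fun z => ‖E₁ k z‖ ^ 2) h1) (ind_ge (fun z => ‖E₂ k z‖ ^ 2) h2)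
      · have := pt_e (e₂ := 0) (p := 0) (n₁ := 0) (n₂ := 0) (d := v₁ k z - v₂ k z) ht c0 c1
          (ind_ge (fun z => |e₁ k z|) h1) (abs_zero.trans_le (ind_nn (O₂ k) (fun z => |e₂ k z|) z))
          c5 c4 (by simp) ((zero_pow two_ne_zero).trans_le (ind_nn (O₁ k) (fun z => ‖E₁ k z‖ ^ 2) z))
          ((zero_pow two_ne_zero).trans_le (ind_nn (O₂ k) (fun z => ‖E₂ k z‖ ^ 2) z))
        simpa only [(c3 h2).self_of_nhds, (loc_const (k := 1) (c3 h2)).2.1.self_of_nhds,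
          Pi.one_apply, Pi.zero_apply, sub_self, zero_mul, mul_zero, zero_apply] using this
    · have h2 : z ∈ O₂ k := by_contra fun h2 => by
        simpa using (c2 h1).self_of_nhds.symm.trans (c3 h2).self_of_nhds
      have := pt_e (e₁ := 0) (p := 0) (n₁ := 0) (n₂ := 0) (d := v₁ k z - v₂ k z) ht c0 c1
        (abs_zero.trans_le (ind_nn (O₁ k) (fun z => |e₁ k z|) z)) (ind_ge (fun z => |e₂ k z|) h2)
        c5 c4 (by simp) ((zero_pow two_ne_zero).trans_le (ind_nn (O₁ k) (fun z => ‖E₁ k z‖ ^ 2) z))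
        ((zero_pow two_ne_zero).trans_le (ind_nn (O₂ k) (fun z => ‖E₂ k z‖ ^ 2) z))
      simpa only [(c2 h1).self_of_nhds, (loc_const (k := 0) (c2 h1)).2.1.self_of_nhds,
        Pi.zero_apply, zero_mul, mul_zero, zero_apply] using this
  · refine ((hJ.smul (t := 3) (by norm_num)).add hC (hd.smul (t := 12) (by norm_num))
      (by positivity) (by positivity)).mono hC (by linarith) (H.mono fun k ⟨_, _, _, _, hk⟩ =>
        .of_forall fun z hz => ⟨hz, ?_⟩)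
    obtain ⟨c0, c1, c2, c3, c4, -⟩ := hk z hz
    by_cases h1 : z ∈ O₁ k
    · by_cases h2 : z ∈ O₂ k
      · exact pt_E c0 c1 c4 (ind_ge (fun z => ‖E₁ k z‖ ^ 2) h1) (ind_ge (fun z => ‖E₂ k z‖ ^ 2) h2)
      · have := pt_E (E₂ := 0) (d := v₁ k z - v₂ k z) c0 c1 c4 (ind_ge (fun z => ‖E₁ k z‖ ^ 2) h1)
          (le_of_eq_of_le (by simp) (ind_nn (O₂ k) (fun z => ‖E₂ k z‖ ^ 2) z))
        simpa only [(c3 h2).self_of_nhds, Pi.one_apply, sub_self, zero_smul] using this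
    · have h2 : z ∈ O₂ k := by_contra fun h2 => by
        simpa using (c2 h1).self_of_nhds.symm.trans (c3 h2).self_of_nhds
      have := pt_E (E₁ := 0) (d := v₁ k z - v₂ k z) c0 c1 c4
        (le_of_eq_of_le (by simp) (ind_nn (O₁ k) (fun z => ‖E₁ k z‖ ^ 2) z))
        (ind_ge (fun z => ‖E₂ k z‖ ^ 2) h2)
      simpa only [(c2 h1).self_of_nhds, Pi.zero_apply, zero_smul] using this
  · obtain ⟨B₁, b1, b2⟩ := p4.pos hC
    obtain ⟨B₂, b3, b4⟩ := q4.pos hC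
    exact ⟨_, (un b2.ind).add hC (un b4.ind) b1.le b3.le⟩

end Pool.Agent.MP_c69980_ag.H26
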