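import Pool.Agent.MP_c69980_ag.H26.Mean
import Pool.Agent.MP_c69980_ag.H26.Patch

/-!
The comparison of characteristics and the final contradiction.
-/

set_option autoImplicit false

namespace Pool.Agent.MP_c69980_ag.H26

open Metric Filter Topology MeasureTheory Set Real H4
open scoped ContDiff ENNReal

lemma int_abs_lap {O : Set ℂ} {g : ℂ → ℝ} (h : Test O g) : Integrable fun z => |lap g z| :=
  ((test_lap h).1.continuous.integrable_of_hasCompactSupport (test_lap h).2.1).abs

theorem comp (hG : GreenStmt) (hQ : LapQStmt) : CompStmt := by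
  intro n n' O B g F Ψ φ c₀ M a hO ⟨g1, g2, g3, g4⟩ hF hΨ hφ ha H
  have key : ∀ {m : ℕ} {F : ℂ → Fin m → ℂ}, Crv O F →
      (Integrable fun z => log (sq (F z)) * lap g z) ∧
        ∫ z, log (sq (F z)) * lap g z = 4 * ∫ z, lam F z * g z := fun {m F} hF => by
    obtain ⟨q1, -, q3⟩ := hQ m O F hO hF
    refine ⟨int_mul hO (q1.continuousOn.locallyIntegrableOn hO.measurableSet) (test_lap g1), ?_⟩
    rw [hG O _ g hO (q1.of_le (by norm_cast)) g1, ← integral_const_mul]
    refine integral_congr_ae (.of_forall fun z => ?_)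
    by_cases hz : z ∈ O
    · simp only [q3 z hz, mul_assoc]
    · simp [test_zero g1 hz]
  obtain ⟨l1, l2⟩ := logSub O φ hO hφ
  have h1 := (subMean O _ hO l1 (H.mono fun c hc a s s1 s2 =>
    (l2 c s s1 s2 (hc a).1).2)).2.2.2 g g1 g2
  simp only [Pi.zero_apply, zero_mul, add_zero, map_zero] at h1
  have i1 := int_mul hO l1 (test_lap g1)
  have i2 := ((key hF).1.const_mul M).sub (key hΨ).1
  have h2 : ∫ z, -a * |lap g z| ≤ ∫ z, (M * (log (sq (F z)) * lap g z) -
      log (sq (Ψ z)) * lap g z - 2 * (log ‖φ z‖ * lap g z)) := by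
    refine integral_mono_ae ((int_abs_lap g1).const_mul _) (i2.sub (i1.const_mul _)) ?_
    filter_upwards [H] with z hz
    by_cases h : z ∈ O
    · obtain ⟨-, b1, b2⟩ := hz h
      rw [log_pow] at b1 b2
      push_cast at b1 b2
      rcases le_total 0 (lap g z) with c | c
      · rw [abs_of_nonneg c]; nlinarith
      · by_cases hB : z ∈ B
        · rw [abs_of_nonpos c]; nlinarith [b2 hB]
        · simp [le_antisymm c (g4 z hB)]
    · simp [test_zero (test_lap g1) h]
  rw [integral_sub (by exact i2) (i1.const_mul _), integral_sub ((key hF).1.const_mul M) (key hΨ).1,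
    integral_const_mul, integral_const_mul, integral_const_mul, (key hF).2, (key hΨ).2] at h2
  have h3 : 0 ≤ ∫ z, |lap g z| := integral_nonneg fun _ => abs_nonneg _
  nlinarith [mul_le_mul_of_nonneg_left g3 ha, mul_nonneg ha h3]

lemma log_le_lin {T x : ℝ} (hT : 1 ≤ T) (hx : 0 ≤ x) : log (1 + x) ≤ 2 * log T + x / T ^ 2 := by
  have h1 : 1 ≤ T ^ 2 := one_le_pow₀ hT
  have h2 := log_le_sub_one_of_pos (x := (1 + x) / T ^ 2) (by positivity)
  rw [log_div (by positivity) (by positivity), log_pow, add_div] at h2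
  push_cast at h2
  linarith [div_le_one_of_le₀ h1 (by positivity : 0 ≤ T ^ 2)]

theorem final : FinalStmt := by
  intro C B g c₀ κ hC hκ hT H HY HV
  have hη : 0 < κ / 4 := by positivity
  obtain ⟨v, a, ⟨e, e', E, a', p1, p2, p3, p4⟩, hv⟩ := HV _ hη
  obtain ⟨A, hA, p5⟩ := p4.pos hC
  obtain ⟨c, hc, hc'⟩ : ∃ c, 0 < c ∧ c₀ ≤ c := ⟨max c₀ 1, by positivity, le_max_left _ _⟩
  obtain ⟨ε, hε, hε'⟩ : ∃ ε, 0 < ε ∧ 2 * ε * c = κ / 4 :=
    ⟨κ / (8 * c), by positivity, by field_simp; ring⟩
  obtain ⟨k, ⟨hB, ⟨g1, g2, g3, g4⟩, g5, hu, h1, g6⟩, ⟨Y, y1, y2, y3, y4⟩, ⟨hAS, hub⟩,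
    ⟨f₁, -, f12, f13⟩, ⟨f₂, m2, f22, f23⟩, ⟨f₃, m3, f32, f33⟩, hv, T1, T2⟩ :=
    (H.and ((HY _ hη).and (p1.and (p2.and (p3.and (p5.and (hv.and
      ((hT.eventually_ge_atTop 1).and (hT.eventually_gt_atTop
        ((a + (|a'| - 2 * log ε) * c + A) / (κ / 4))))))))))).exists
  have hO := hC.1 k
  have G0 := hC.2.1 k
  set T := C.T k
  have T0 : 0 < T := by linarith
  have i1 := int_mul hO hAS.1 (test_lap g1)
  have i2 := int_mul hO hAS.2.1 g1
  have i3 := int_fd hO hAS.2.2.1 g1
  have i4 := int_mul hO (hu.locallyIntegrableOn hO.measurableSet) (test_lap g1)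
  have i5 : Integrable fun z => (C.u k z + v k z) * lap (g k) z := by
    simp only [add_mul]; exact i4.add i1
  have b0 := hAS.2.2.2 _ g1 g2
  rw [integral_add (by exact i1.add i2) i3, integral_add i1 i2] at b0
  have b1 : ∫ z, e k z * g k z ≤ κ / 4 * T := by
    refine int_le i2 (f12.mono fun z hz => ?_) f13 (by positivity)
    by_cases h : z ∈ C.Ω k
    · refine le_trans (ENNReal.ofReal_le_ofReal ?_) (hz h)
      nlinarith [le_abs_self (e k z), abs_nonneg (e k z), g2 z, g5 z]
    · simp [test_zero g1 h]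
  have b2 : ∫ z, (2 * fderiv ℝ (g k) z (E k z) - Y z) ≤ κ / 4 * T := by
    refine int_le ((i3.const_mul _).sub y1) (f22.mono fun z hz => ?_) f23 (by positivity)
    by_cases h : z ∈ C.Ω k
    · refine le_trans (ENNReal.ofReal_le_ofReal ?_) (hz h)
      have h2 := (le_abs_self _).trans (abs_fderiv_le (g k) z (E k z))
      have h3 : (2 * (‖grad (g k) z‖ * ‖E k z‖)) ^ 2 ≤ (Y z + C.g k z * ‖E k z‖ ^ 2) ^ 2 := by
        nlinarith [mul_le_mul_of_nonneg_right (y4 z) (sq_nonneg ‖E k z‖),
          sq_nonneg (Y z - C.g k z * ‖E k z‖ ^ 2)]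
      linarith [abs_le_of_sq_le_sq h3 (add_nonneg (y2 z) (mul_nonneg (G0 z) (sq_nonneg _))),
        le_abs_self (2 * (‖grad (g k) z‖ * ‖E k z‖))]
    · rw [ENNReal.ofReal_of_nonpos (by simp [test_fderiv g1 h, y2 z])]; exact zero_le
  rw [integral_sub (i3.const_mul _) y1, integral_const_mul] at b2
  have l0 : 0 ≤ log T := log_nonneg T1
  have b3 : ∫ z, T * ((B k)ᶜ.indicator (fun z => (C.u k z + v k z) * lap (g k) z) z -
      (|a'| + 2 * log T) * |lap (g k) z|) ≤ A * T := by
    refine int_le (((i5.indicator hB.compl).sub ((int_abs_lap g1).const_mul _)).const_mul _)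
      ?_ f33 (by positivity)
    filter_upwards [f32, hub] with z hz hw
    have n : 0 ≤ T * ((|a'| + 2 * log T) * |lap (g k) z|) := by positivity
    by_cases hb : z ∈ (B k)ᶜ
    swap
    · rw [indicator_of_notMem hb, ENNReal.ofReal_of_nonpos (by linarith)]; exact zero_le
    rw [indicator_of_mem hb]
    by_cases h : z ∈ C.Ω k
    · refine le_trans (ENNReal.ofReal_le_ofReal ?_) (hz h)
      have h2 := mul_le_mul_of_nonneg_right (((hw h).2.trans (add_le_add (le_abs_self _)
        (log_le_lin T1 (hw h).1)))) (g4 z hb)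
      have h3 := mul_le_mul_of_nonneg_left (g6 z hb) (div_nonneg (hw h).1 T0.le)
      have h4 : e' k z / T * (T * C.g k z) = C.g k z * e' k z := by field_simp
      have h5 : T * (e' k z / T ^ 2 * lap (g k) z) = e' k z / T * lap (g k) z := by field_simp
      rw [abs_of_nonneg (g4 z hb)]
      nlinarith [mul_le_mul_of_nonneg_left h2 T0.le]
    · simp [test_zero (test_lap g1) h]
  rw [integral_const_mul, mul_comm A, mul_le_mul_iff_right₀ T0, integral_sub (i5.indicator hB.compl)
    ((int_abs_lap g1).const_mul _), integral_const_mul, integral_indicator hB.compl] at b3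
  have b4 := integral_add_compl hB i5
  have b5 : ∫ z, (C.u k z + v k z) * lap (g k) z =
      (∫ z, C.u k z * lap (g k) z) + ∫ z, v k z * lap (g k) z := by
    simpa only [add_mul] using integral_add i4 i1
  have b6 := mul_le_mul_of_nonneg_left (g3.trans hc') (by positivity : 0 ≤ |a'| + 2 * log T)
  have b7 := log_le_sub_one_of_pos (mul_pos hε T0)
  rw [log_mul hε.ne' T0.ne'] at b7
  rw [div_lt_iff₀ hη] at T2
  have b8 := mul_le_mul_of_nonneg_right b7 hc.le
  have b9 : ε * T * c = κ / 8 * T := by linear_combination T / 2 * hε'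
  nlinarith

end Pool.Agent.MP_c69980_ag.H26
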