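import Pool.Agent.MP_c69980_ag.H26.Basic

/-!
The sub-mean property implies a nonnegative Laplacian in the sense of distributions.
-/

set_option autoImplicit false

namespace Pool.Agent.MP_c69980_ag.H26

open Metric Filter Topology MeasureTheory Set Real H4
open scoped ContDiff ENNReal

variable {ψ : ℂ → ℝ}

lemma sd (hψ : ContDiff ℝ ∞ ψ) (y w : ℂ) : ∃ ξ : ℝ, |ξ| ≤ 1 ∧
    ψ (y + w) + ψ (y - w) - 2 * ψ y = fderiv ℝ (fderiv ℝ ψ) (y + ξ • w) w w := by
  have d1 := hψ.differentiable (by simp)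
  have d2 := (hψ.fderiv_right (m := ∞) le_rfl).differentiable (by simp)
  have l : ∀ t : ℝ, HasDerivAt (fun t : ℝ => y + t • w) w t := fun t => by
    simpa using ((hasDerivAt_id t).smul_const w).const_add y
  have h1 : ∀ t : ℝ, HasDerivAt (fun t : ℝ => ψ (y + t • w)) (fderiv ℝ ψ (y + t • w) w) t :=
    fun t => (d1 _).hasFDerivAt.comp_hasDerivAt t (l t)
  have h2 : ∀ t : ℝ, HasDerivAt (fun t : ℝ => fderiv ℝ ψ (y + t • w) w)
      (fderiv ℝ (fderiv ℝ ψ) (y + t • w) w w) t := fun t => by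
    simpa using ((d2 _).hasFDerivAt.comp_hasDerivAt t (l t)).clm_apply (hasDerivAt_const t w)
  have h3 : ∀ t : ℝ, HasDerivAt (fun t : ℝ => ψ (y + t • w) + ψ (y + (-t) • w))
      (fderiv ℝ ψ (y + t • w) w - fderiv ℝ ψ (y + (-t) • w) w) t := fun t => by
    have := (h1 t).add ((h1 (-t)).comp t (hasDerivAt_neg t))
    rwa [mul_neg_one, ← sub_eq_add_neg] at this
  obtain ⟨t, ⟨t1, t2⟩, t3⟩ := exists_ratio_hasDerivAt_eq_ratio_slope _ _ one_pos
    (fun x _ => (h3 x).continuousAt.continuousWithinAt) (fun x _ => h3 x) (fun t : ℝ => t ^ 2)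
    (fun t => 2 * t) (by fun_prop) fun x _ => by simpa using hasDerivAt_pow 2 x
  obtain ⟨ξ, ⟨x1, x2⟩, x3⟩ := exists_hasDerivAt_eq_slope _ _ (show -t < t by linarith)
    (fun x _ => (h2 x).continuousAt.continuousWithinAt) fun x _ => h2 x
  refine ⟨ξ, abs_le.2 ⟨by linarith, by linarith⟩, ?_⟩
  rw [x3, eq_div_iff (by linarith)]
  simp only [one_smul, neg_smul, ← sub_eq_add_neg, zero_smul, add_zero, neg_zero] at t3 ⊢
  linarith

lemma DD (hψ : ContDiff ℝ ∞ ψ) (z v : ℂ) : D v (D v ψ) z = fderiv ℝ (fderiv ℝ ψ) z v v := by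
  have d2 := (hψ.fderiv_right (m := ∞) le_rfl).differentiable (by simp) z
  have := d2.hasFDerivAt.clm_apply (hasFDerivAt_const v z)
  show fderiv ℝ (fun z => fderiv ℝ ψ z v) z v = _
  rw [this.fderiv]; simp

lemma bil_rot (B : ℂ →L[ℝ] ℂ →L[ℝ] ℝ) (w : ℂ) :
    B w w + B (Complex.I * w) (Complex.I * w) = ‖w‖ ^ 2 * (B 1 1 + B Complex.I Complex.I) := by
  have e : ∀ v : ℂ, v = v.re • (1 : ℂ) + v.im • Complex.I := fun v => by simp
  rw [e (Complex.I * w), Complex.sq_norm, Complex.normSq_apply]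
  conv_lhs => rw [e w]
  simp only [map_add, map_smul, add_apply, smul_apply, smul_eq_mul]
  simp
  ring

lemma five (hψ : ContDiff ℝ ∞ ψ) (hc : HasCompactSupport ψ) {ε : ℝ} (hε : 0 < ε) :
    ∃ δ, 0 < δ ∧ ∀ y w : ℂ, ‖w‖ < δ → |ψ (y - 1 * w) + ψ (y - -1 * w) + ψ (y - Complex.I * w) +
      ψ (y - -Complex.I * w) - 4 * ψ y - ‖w‖ ^ 2 * lap ψ y| ≤ ‖w‖ ^ 2 * (2 * ε) := by
  have c2 := ((hψ.fderiv_right (m := ∞) le_rfl).fderiv_right (m := ∞) le_rfl).continuous
  obtain ⟨δ, d1, d2⟩ := (Metric.uniformContinuous_iff (f := fderiv ℝ (fderiv ℝ ψ))).1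
    (((hc.fderiv ℝ).fderiv ℝ).uniformContinuous_of_continuous c2) ε hε
  refine ⟨δ, d1, fun y w hw => ?_⟩
  have key : ∀ v : ℂ, ‖v‖ = ‖w‖ → |ψ (y + v) + ψ (y - v) - 2 * ψ y -
      fderiv ℝ (fderiv ℝ ψ) y v v| ≤ ‖w‖ ^ 2 * ε := fun v hv => by
    obtain ⟨ξ, x1, x2⟩ := sd hψ y v
    have h1 : dist (y + ξ • v) y < δ := by
      rw [dist_eq_norm, add_sub_cancel_left, norm_smul, hv, norm_eq_abs]
      nlinarith [norm_nonneg w, abs_nonneg ξ]
    have h2 := (fderiv ℝ (fderiv ℝ ψ) (y + ξ • v) - fderiv ℝ (fderiv ℝ ψ) y).le_opNorm₂ v v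
    have h3 : ‖fderiv ℝ (fderiv ℝ ψ) (y + ξ • v) - fderiv ℝ (fderiv ℝ ψ) y‖ ≤ ε :=
      (dist_eq_norm (E := ℂ →L[ℝ] ℂ →L[ℝ] ℝ) _ _).symm.trans_le (d2 h1).le
    rw [x2]
    simp only [sub_apply, norm_eq_abs, hv] at h2
    refine h2.trans ?_
    have := norm_nonneg w
    rw [mul_assoc, ← pow_two, mul_comm]
    gcongr
  have a := abs_le.1 (key w rfl)
  have b := abs_le.1 (key (Complex.I * w) (by simp))
  have c := bil_rot (fderiv ℝ (fderiv ℝ ψ) y) w
  simp only [lap, DD hψ, one_mul, neg_mul, sub_neg_eq_add]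
  rw [abs_le]
  constructor <;> linarith [a.1, a.2, b.1, b.2]

lemma rot_mp {a : ℂ} (ha : ‖a‖ = 1) : MeasurePreserving fun w : ℂ => a * w :=
  (rotation ⟨a, mem_sphere_zero_iff_norm.2 ha⟩).measurePreserving

lemma rot_int {a : ℂ} (ha : ‖a‖ = 1) (Φ : ℂ → ℝ) (s : ℝ) :
    ∫ w in ball 0 s, Φ (a * w) = ∫ w in ball 0 s, Φ w := by
  rw [← (rot_mp ha).setIntegral_preimage_emb
    (rotation ⟨a, mem_sphere_zero_iff_norm.2 ha⟩).toHomeomorph.measurableEmbedding Φ (ball 0 s)]
  congr 2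
  ext w
  simp [ha]

lemma int5 {μ : Measure ℂ} {f₁ f₂ f₃ f₄ f₅ : ℂ → ℝ} (h₁ : Integrable f₁ μ) (h₂ : Integrable f₂ μ)
    (h₃ : Integrable f₃ μ) (h₄ : Integrable f₄ μ) (h₅ : Integrable f₅ μ) :
    ∫ z, (f₁ z + f₂ z + f₃ z + f₄ z - f₅ z) ∂μ =
      ∫ z, f₁ z ∂μ + ∫ z, f₂ z ∂μ + ∫ z, f₃ z ∂μ + ∫ z, f₄ z ∂μ - ∫ z, f₅ z ∂μ := by
  rw [integral_sub (by exact ((h₁.add h₂).add h₃).add h₄) h₅,
    integral_add (by exact (h₁.add h₂).add h₃) h₄, integral_add (by exact h₁.add h₂) h₃,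
    integral_add h₁ h₂]

theorem subMean : SubMeanStmt := fun O v hO hv hm => by
  refine ⟨hv, locallyIntegrableOn_zero, locallyIntegrableOn_zero, fun ψ hψ h0 => ?_⟩
  simp only [Pi.zero_apply, zero_mul, add_zero, map_zero]
  obtain ⟨δ, d1, d2⟩ := hψ.2.1.isCompact.exists_cthickening_subset_open hO hψ.2.2
  have hK : IsCompact (cthickening δ (tsupport ψ)) := hψ.2.1.isCompact.cthickening
  set K := cthickening δ (tsupport ψ)
  have hV : Integrable (K.indicator v) :=
    (integrable_indicator_iff hK.measurableSet).2 (hv.integrableOn_compact_subset d2 hK)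
  set V := K.indicator v
  have hKs : tsupport ψ ⊆ K := self_subset_cthickening _
  have iψ : Integrable ψ := hψ.1.continuous.integrable_of_hasCompactSupport hψ.2.1
  have i1 : Integrable (fun p : ℂ × ℂ => ψ p.1 * V (p.1 + p.2)) (volume.prod volume) :=
    (measurePreserving_prod_add volume volume).integrable_comp_of_integrable (iψ.mul_prod hV)
  set Φ : ℂ → ℝ := fun w => ∫ c, ψ c * V (c + w) with hΦ
  have iΦ : Integrable Φ := i1.integral_prod_right
  have eΦ : ∀ w, Φ w = ∫ y, V y * ψ (y - w) := fun w => by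
    rw [← integral_add_right_eq_self _ w]
    simp [hΦ, mul_comm]
  have A : ∀ s, 0 < s → s ≤ δ → π * s ^ 2 * Φ 0 ≤ ∫ w in ball 0 s, Φ w := fun s s1 s2 => by
    have i2 : Integrable (fun p : ℂ × ℂ => ψ p.1 * V (p.1 + p.2))
        (volume.prod (volume.restrict (ball 0 s))) := by
      rw [← Measure.restrict_univ (μ := (volume : Measure ℂ)), Measure.restrict_restrict_of_subset
        (subset_univ _), Measure.prod_restrict]
      exact i1.integrableOn
    rw [hΦ, ← integral_integral_swap (f := fun c w => ψ c * V (c + w)) i2, ← integral_const_mul]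
    refine integral_mono_ae ?_ i2.integral_prod_left ?_
    · simpa [mul_comm] using (hV.bdd_mul hψ.1.continuous.aestronglyMeasurable (.of_forall
        (hψ.2.1.exists_bound_of_continuous hψ.1.continuous).choose_spec)).const_mul (π * s ^ 2)
    filter_upwards [hm] with c hc
    by_cases h : c ∈ tsupport ψ
    · have h1 : closedBall c s ⊆ K :=
        (closedBall_subset_closedBall s2).trans (closedBall_subset_cthickening h δ)
      have h2 := (measurePreserving_add_left volume c).setIntegral_preimage_emb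
        (measurableEmbedding_addLeft c) V (ball c s)
      rw [preimage_add_left_ball, neg_add_cancel] at h2
      simp only [integral_const_mul, h2, add_zero]
      rw [setIntegral_congr_fun measurableSet_ball fun z hz =>
        indicator_of_mem (h1 (ball_subset_closedBall hz)) v, mul_left_comm,
        show V c = v c from indicator_of_mem (hKs h) v]
      exact mul_le_mul_of_nonneg_left (hc (hψ.2.2 h) s s1 (h1.trans d2)) (h0 c)
    · simp [image_eq_zero_of_notMem_tsupport h]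
  have eL : ∫ z, v z * lap ψ z = ∫ z, V z * lap ψ z := integral_congr_ae (.of_forall fun z => by
    by_cases h : z ∈ K
    · simp only [show V z = v z from indicator_of_mem h v]
    · simp [test_zero (test_lap (test_self hψ)) fun a => h (hKs a)])
  have iV : ∀ {g : ℂ → ℝ}, Continuous g → HasCompactSupport g → ∀ w,
      Integrable fun y => V y * g (y - w) := fun c1 c2 w =>
    hV.mul_bdd (c1.comp (continuous_sub_right w)).aestronglyMeasurable
      (.of_forall fun y => (c2.exists_bound_of_continuous c1).choose_spec _)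
  have i3 := iV hψ.1.continuous hψ.2.1
  have i4 := iV (test_lap hψ).1.continuous (test_lap hψ).2.1 0
  have i5 := i3 0
  simp only [sub_zero] at i4 i5
  rw [eL]
  set M := ∫ y, |V y|
  have hM : 0 ≤ M := integral_nonneg fun _ => abs_nonneg _
  refine le_of_forall_pos_le_add fun ε hε => ?_
  obtain ⟨δ', e1, e2⟩ := five hψ.1 hψ.2.1 (ε := ε / (2 * (M + 1))) (by positivity)
  have B : ∀ w : ℂ, ‖w‖ < δ' → Φ (1 * w) + Φ (-1 * w) + Φ (Complex.I * w) + Φ (-Complex.I * w) -
      4 * Φ 0 ≤ ‖w‖ ^ 2 * ((∫ z, V z * lap ψ z) + ε) := fun w hw => by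
    have h1 : ε / (2 * (M + 1)) * 2 * M ≤ ε := by
      rw [div_mul_eq_mul_div, div_mul_eq_mul_div, div_le_iff₀ (by positivity)]; nlinarith
    refine le_trans ?_ (mul_le_mul_of_nonneg_left (add_le_add_right h1 _) (sq_nonneg ‖w‖))
    simp only [eΦ, sub_zero]
    rw [← integral_const_mul, ← int5 (i3 _) (i3 _) (i3 _) (i3 _) (i5.const_mul _),
      ← integral_const_mul, ← integral_add i4 (hV.abs.const_mul _), ← integral_const_mul]
    refine integral_mono (((((i3 _).add (i3 _)).add (i3 _)).add (i3 _)).sub (i5.const_mul _))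
      ((i4.add (hV.abs.const_mul _)).const_mul _) fun y => ?_
    have h2 := mul_le_mul_of_nonneg_left (e2 y w hw) (abs_nonneg (V y))
    rw [← abs_mul] at h2
    linarith [(abs_le.1 h2).2]
  have s1 : 0 < min δ δ' := lt_min d1 e1
  have j : ∀ {a : ℂ}, ‖a‖ = 1 → IntegrableOn (fun w => Φ (a * w)) (ball 0 (min δ δ')) := fun ha =>
    ((rot_mp ha).integrable_comp_of_integrable iΦ).integrableOn
  have n1 : ‖(1 : ℂ)‖ = 1 := by simp
  have n2 : ‖(-1 : ℂ)‖ = 1 := by simp
  have n3 : ‖Complex.I‖ = 1 := by simp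
  have n4 : ‖-Complex.I‖ = 1 := by simp
  have j0 : IntegrableOn (fun _ : ℂ => 4 * Φ 0) (ball 0 (min δ δ')) :=
    integrableOn_const measure_ball_lt_top.ne
  have j1 : IntegrableOn (fun w : ℂ => ‖w‖ ^ 2) (ball 0 (min δ δ')) :=
    ((by fun_prop : Continuous fun w : ℂ => ‖w‖ ^ 2).continuousOn.integrableOn_compact
      (isCompact_closedBall _ _)).mono_set ball_subset_closedBall
  have h1 := setIntegral_mono_on (((((j n1).add (j n2)).add (j n3)).add (j n4)).sub j0)
    (j1.mul_const _) measurableSet_ball fun w hw =>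
      B w ((mem_ball_zero_iff.1 hw).trans_le (min_le_right _ _))
  simp only [Pi.add_apply, Pi.sub_apply] at h1
  rw [int5 (j n1) (j n2) (j n3) (j n4) j0, rot_int n1, rot_int n2, rot_int n3, rot_int n4, setIntegral_const,
    vol_ball _ s1, integral_mul_const, smul_eq_mul] at h1
  have h2 : 0 < ∫ w in ball (0 : ℂ) (min δ δ'), ‖w‖ ^ 2 := by
    rw [setIntegral_pos_iff_support_of_nonneg_ae (.of_forall fun _ => by positivity) j1]
    refine (((by fun_prop : Continuous fun w : ℂ => ‖w‖ ^ 2).isOpen_support).inter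
      isOpen_ball).measure_pos _ ⟨(min δ δ' / 2 : ℝ), ?_, ?_⟩
    · simpa using s1.ne'
    · rw [mem_ball_zero_iff, Complex.norm_real, norm_eq_abs, abs_of_pos (half_pos s1)]
      exact half_lt_self s1
  exact nonneg_of_mul_nonneg_right (by linarith [A _ s1 (min_le_left _ _)]) h2

end Pool.Agent.MP_c69980_ag.H26
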